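import Pool.Agent.TH464.PO.PolyPair

set_option autoImplicit false

/-!
# Almost primes `P`, `Q` with `a P ^ 2 + b P + c = d Q`: patterns with prescribed surroundings

Let `(a, b, c, d)` be admissible in the sense of the problem, `a x0 ^ 2 + b x0 + c = d y0` with
`gcd (x0 y0, 6 a d) = 1`. Let `m` be good if `P = d m + x0` has at most `r` prime factors and
`Q = a d m ^ 2 + (2 a x0 + b) m + y0` (so that `a P ^ 2 + b P + c = d Q`) at most `2 r`, all of
them larger than `X ^ (1 / r)`. Let `V` be the sieve density of this condition, and for a finite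
set `B` let `V_B` be the sieve density of the condition that all `m + t`, `t ∈ B`, satisfy it.
Given `θ > 0`, a size `β` of patterns, a number `w` of windows, a size `x` and an accuracy `ε`,
for all `r ≥ r0` and all large `X`, in ALL intervals `(Z, Z + Y]` inside `[0, 2 X]` of length
`Y ≥ X ^ θ`, for ALL sets `B ⊆ [0, x / V]` of at most `β` elements, ALL disjoint windows
`(u_i, v_i] ⊆ [0, x / V]` without elements of `B` and ALL finite sets `E_i`: the number of the `m`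
in `(Z, Z + Y]` such that all `m + h`, `h ∈ B`, are good and the number of the good integers in
`(m + u_i, m + v_i]` lies in `E_i` for every `i` is `Y V_B` times the product of the Poisson
probabilities of the `E_i` for the means `(v_i - u_i) V`, up to `ε Y V_B`.
-/

namespace Pool.Agent.Results.MP_f37147_nt.Patterns

open Finset Filter

/-- `N` has at most `B` prime factors (with multiplicity), all of them larger than `z`. -/
def AlmostPrime (B : ℕ) (z : ℝ) (N : ℕ) : Prop :=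
  N.primeFactorsList.length ≤ B ∧ ∀ p : ℕ, p.Prime → p ∣ N → z < (p : ℝ)

/-- The first number, `P = d m + x0`. -/
def P (d x0 : ℤ) (m : ℕ) : ℤ := d * m + x0

/-- The second number, `Q = a d m ^ 2 + (2 a x0 + b) m + y0`. If `a x0 ^ 2 + b x0 + c = d y0` then
`a P ^ 2 + b P + c = d Q`. -/
def Q (a b d x0 y0 : ℤ) (m : ℕ) : ℤ := a * d * (m : ℤ) ^ 2 + (2 * a * x0 + b) * m + y0

/-- `m` is good: `|P|` has at most `r` prime factors and `|Q|` at most `2 r`, all of them larger than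
`X ^ (1 / r)`. -/
def Good (a b d x0 y0 : ℤ) (r X m : ℕ) : Prop :=
  AlmostPrime r ((X : ℝ) ^ (1 / (r : ℝ))) (P d x0 m).natAbs ∧
    AlmostPrime (2 * r) ((X : ℝ) ^ (1 / (r : ℝ))) (Q a b d x0 y0 m).natAbs

open Classical in
/-- The sieve density: the product of `1 - ρ(p) / p` over the primes `p ≤ X ^ (1 / r)`, where `ρ(p)` is
the number of the `m` mod `p` with `p ∣ P` or `p ∣ Q`. -/
noncomputable def V (a b d x0 y0 : ℤ) (r X : ℕ) : ℝ :=
  ∏ p ∈ (Finset.range (⌊(X : ℝ) ^ (1 / (r : ℝ))⌋₊ + 1)).filter Nat.Prime,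
    (1 - (((Finset.range p).filter (fun m : ℕ => (p : ℤ) ∣ P d x0 m ∨
      (p : ℤ) ∣ Q a b d x0 y0 m)).card : ℝ) / p)

open Classical in
/-- The sieve density of the pattern `B`: the product of `1 - ρ(p) / p` over the primes `p ≤ X ^ (1 / r)`,
where `ρ(p)` is the number of the `m` mod `p` for which the previous condition holds at `m + t` for some
`t ∈ B`. -/
noncomputable def VB (a b d x0 y0 : ℤ) (r X : ℕ) (B : Finset ℕ) : ℝ :=
  ∏ p ∈ (Finset.range (⌊(X : ℝ) ^ (1 / (r : ℝ))⌋₊ + 1)).filter Nat.Prime,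
    (1 - (((Finset.range p).filter (fun m : ℕ => ∃ t ∈ B, (p : ℤ) ∣ P d x0 (m + t) ∨
      (p : ℤ) ∣ Q a b d x0 y0 (m + t))).card : ℝ) / p)

open Classical in
/-- The number of the good `m` in `(u, v]`. -/
noncomputable def count (a b d x0 y0 : ℤ) (r X : ℕ) (u v : ℕ) : ℕ :=
  ((Finset.Ioc u v).filter (fun m => Good a b d x0 y0 r X m)).card

/-- The probability of `E` for the Poisson distribution of mean `x`. -/
noncomputable def Poi (x : ℝ) (E : Finset ℕ) : ℝ :=
  ∑ j ∈ E, Real.exp (-x) * x ^ j / j.factorial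

open Pool.Agent.TH464.PO Pool.Agent.TH464.PW Pool.Agent.W123.RU Pool.Agent.W123.RU.Poly
open Pool.Agent.H373R2.T7 Pool.Agent.W123.RP

lemma good_iff (a b d x0 y0 : ℤ) (ha : 0 < a) (hd : 0 < d) (r : ℕ) (hr : 1 ≤ r) :
    ∀ᶠ X : ℕ in atTop, ∀ m : ℕ, m ≤ 3 * X →
    (Sf (W123.RU.Poly.Q (fP a b d x0 y0)) ⌊(X : ℝ) ^ (1 / (r : ℝ))⌋₊ m ↔
      Good a b d x0 y0 r X m) := by
  filter_upwards [sf_two (ln d x0) (quad (a * d) (2 * a * x0 + b) y0) 1 2 (ln_deg d x0 hd.ne').le
    (quad_deg (a * d) _ y0 (mul_pos ha hd).ne').le r hr] with X hX m hm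
  have h := hX m hm
  rw [ln_eval, quad_eval, one_mul] at h
  exact h

lemma Q_iff (a b d x0 y0 : ℤ) (p m : ℕ) : W123.RU.Poly.Q (fP a b d x0 y0) p m ↔
    ((p : ℤ) ∣ P d x0 m ∨ (p : ℤ) ∣ Q a b d x0 y0 m) := by
  unfold fP
  rw [Q_two, ln_eval, quad_eval]
  rfl

open Classical in
/-- **Patterns with prescribed surroundings**, in all intervals. -/
theorem result (a b c d x0 y0 : ℤ) (ha : 0 < a) (hd : 0 < d) (hD : ¬ IsSquare (b ^ 2 - 4 * a * c))
    (hco : IsCoprime (x0 * y0) (6 * a * d)) (hxy : a * x0 ^ 2 + b * x0 + c = d * y0)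
    (θ : ℝ) (hθ : 0 < θ) (β w : ℕ) (x ε : ℝ) (hε : 0 < ε) :
    ∃ r0 : ℕ, ∀ r : ℕ, r0 ≤ r → ∀ᶠ X : ℕ in atTop, ∀ Z Y : ℕ, (X : ℝ) ^ θ ≤ Y → Z + Y ≤ 2 * X →
      ∀ B : Finset ℕ, B.card ≤ β → (∀ h ∈ B, h * V a b d x0 y0 r X ≤ x) →
      ∀ u v : Fin w → ℕ, (∀ i, u i ≤ v i) → (∀ i, v i * V a b d x0 y0 r X ≤ x) →
      (∀ i j, i ≠ j → v i ≤ u j ∨ v j ≤ u i) → (∀ i, ∀ h ∈ B, h ≤ u i ∨ v i < h) →
      ∀ E : Fin w → Finset ℕ,
        |(((Finset.Ioc Z (Z + Y)).filter (fun m => (∀ h ∈ B, Good a b d x0 y0 r X (m + h)) ∧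
            ∀ i, count a b d x0 y0 r X (m + u i) (m + v i) ∈ E i)).card : ℝ) -
          Y * VB a b d x0 y0 r X B * ∏ i, Poi (((v i : ℝ) - u i) * V a b d x0 y0 r X) (E i)| ≤
            ε * (Y * VB a b d x0 y0 r X B) := by
  obtain ⟨r0, h0⟩ := poly_baseg (fP a b d x0 y0) (fP_sys a b c d x0 y0 ha hd hD hco hxy)
    (fP_noTr a b d x0 y0 ha hd) θ hθ β w x ε hε
  refine ⟨max r0 1, ?_⟩
  intro r hr
  filter_upwards [h0 r ((le_max_left _ _).trans hr),
    good_iff a b d x0 y0 ha hd r ((le_max_right _ _).trans hr)] with X hX hap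
  exact hX (Good a b d x0 y0 r X) (V a b d x0 y0 r X) (VB a b d x0 y0 r X) hap
    (V_gen' _ _ (Q_iff a b d x0 y0) _) (fun B => V_gen' _ _
    (fun p m => exists_congr fun t => and_congr_right fun _ => Q_iff a b d x0 y0 p (m + t)) _)

end Pool.Agent.Results.MP_f37147_nt.Patterns
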